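import Mathlib
import Pool.Agent.H744R2.KZ.Props

/-!
A von Neumann algebra that is the range of a bounded projection of `B(H)` is injective
(frozen statement S03379): definitions and statements (as propositions) of the pieces.
Everything lives in `Type`.
-/

open scoped ComplexOrder InnerProductSpace ComplexConjugate Topology
open Finset Filter

noncomputable section

namespace H68R2.BP

open H759R2.Kad H744R2.KZ

/-! ### Definitions -/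

section defs

variable {H : Type} [NormedAddCommGroup H] [InnerProductSpace ℂ H] [CompleteSpace H]

/-- Squared column norm of a finite family. -/
def colN {ι : Type} [Fintype ι] (a : ι → (H →L[ℂ] H)) : ℝ := ‖∑ i, star (a i) * a i‖

/-- Squared row norm of a finite family. -/
def rowN {ι : Type} [Fintype ι] (a : ι → (H →L[ℂ] H)) : ℝ := ‖∑ i, a i * star (a i)‖

/-- The corner `p M p`. -/
def Cnr (M : VonNeumannAlgebra H) (p : H →L[ℂ] H) : Set (H →L[ℂ] H) :=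
  {a | a ∈ M ∧ p * a = a ∧ a * p = a}

/-- `B(H)` acting from the left (`l`) and from the right (`r`, conjugate linear, `y ↦ (h ↦ h y*)`)
on the Hilbert-Schmidt operators; `th p q` is the rank one operator `b p ⊗ (b q)*`. -/
structure MinRep {S κ : Type} [NormedAddCommGroup S] [InnerProductSpace ℂ S] [CompleteSpace S]
    (b : HilbertBasis κ ℂ H) (l r : (H →L[ℂ] H) → (S →L[ℂ] S)) (th : κ → κ → S) : Prop where
  l_add : ∀ x y, l (x + y) = l x + l y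
  l_smul : ∀ (c : ℂ) x, l (c • x) = c • l x
  l_mul : ∀ x y, l (x * y) = l x * l y
  l_star : ∀ x, l (star x) = star (l x)
  l_one : l 1 = 1
  l_norm : ∀ x, ‖l x‖ ≤ ‖x‖
  r_add : ∀ x y, r (x + y) = r x + r y
  r_smul : ∀ (c : ℂ) x, r (c • x) = conj c • r x
  r_mul : ∀ x y, r (x * y) = r x * r y
  r_star : ∀ x, r (star x) = star (r x)
  r_one : r 1 = 1
  r_norm : ∀ x, ‖r x‖ ≤ ‖x‖
  comm : ∀ x y, l x * r y = r y * l x
  inner : ∀ x y p q p' q', ⟪th p' q', l x (r y (th p q))⟫_ℂ =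
    ⟪b p', x (b p)⟫_ℂ * conj ⟪b q', y (b q)⟫_ℂ

/-- Commuting representations (`l` linear, `r` conjugate linear, both multiplicative) of a
multiplicatively closed self-adjoint subspace `A` of `B(H)`. -/
structure BiRep {L : Type} [NormedAddCommGroup L] [InnerProductSpace ℂ L] [CompleteSpace L]
    (A : Set (H →L[ℂ] H)) (l r : (H →L[ℂ] H) → (L →L[ℂ] L)) : Prop where
  l_add : ∀ x y, l (x + y) = l x + l y
  l_smul : ∀ (c : ℂ) x, l (c • x) = c • l x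
  l_mul : ∀ x ∈ A, ∀ y ∈ A, l (x * y) = l x * l y
  l_star : ∀ x ∈ A, l (star x) = star (l x)
  l_norm : ∀ x ∈ A, ‖l x‖ ≤ ‖x‖
  r_add : ∀ x y, r (x + y) = r x + r y
  r_smul : ∀ (c : ℂ) x, r (c • x) = conj c • r x
  r_mul : ∀ x ∈ A, ∀ y ∈ A, r (x * y) = r x * r y
  r_star : ∀ x ∈ A, r (star x) = star (r x)
  r_norm : ∀ x ∈ A, ‖r x‖ ≤ ‖x‖
  comm : ∀ x ∈ A, ∀ y ∈ A, l x * r y = r y * l x

/-- The operator `∑ l (x i) r (x i)`. -/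
def TT {L : Type} [NormedAddCommGroup L] [InnerProductSpace ℂ L]
    (l r : (H →L[ℂ] H) → (L →L[ℂ] L)) {ι : Type} [Fintype ι] (x : ι → (H →L[ℂ] H)) : L →L[ℂ] L :=
  ∑ i, l (x i) * r (x i)

/-- Bounded projection onto `M`. -/
def IsBP (M : VonNeumannAlgebra H) (P : (H →L[ℂ] H) →ₗ[ℂ] (H →L[ℂ] H)) (C : ℝ) : Prop :=
  0 ≤ C ∧ (∀ x, ‖P x‖ ≤ C * ‖x‖) ∧ (∀ x, P x ∈ M) ∧ ∀ m ∈ M, P m = m

/-- Row and column bounded projections onto `M z`. -/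
def RCp (M : VonNeumannAlgebra H) (z : H →L[ℂ] H) : Prop :=
  ∃ C : ℝ, 0 ≤ C ∧ ∀ ε : ℝ, 0 < ε → ∃ Q : (H →L[ℂ] H) →ₗ[ℂ] (H →L[ℂ] H),
    (∀ x, Q x ∈ M ∧ z * Q x = Q x) ∧ (∀ m ∈ M, z * m = m → Q m = m) ∧
    ∀ (ι : Type) [Fintype ι] (a : ι → (H →L[ℂ] H)),
      colN (fun i => Q (a i)) ≤ C * (colN a + ε * rowN a) ∧
      rowN (fun i => Q (a i)) ≤ C * (rowN a + ε * colN a)

/-- Projections compatible with matrix units. -/
def ModP (M : VonNeumannAlgebra H) (z : H →L[ℂ] H) (C : ℝ) {n : ℕ}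
    (e : Fin n → Fin n → (H →L[ℂ] H)) (Q : (H →L[ℂ] H) →ₗ[ℂ] (H →L[ℂ] H)) : Prop :=
  (∀ x, ‖Q x‖ ≤ C * ‖x‖) ∧ (∀ x, Q x ∈ M ∧ z * Q x = Q x) ∧ (∀ m ∈ M, z * m = m → Q m = m) ∧
    ∀ i j x, Q (e i j * x) = e i j * Q x ∧ Q (x * e i j) = Q x * e i j

/-- Arbitrarily many isometries with orthogonal ranges. -/
def PInf (M : VonNeumannAlgebra H) (z : H →L[ℂ] H) : Prop :=
  ∀ n : ℕ, ∃ s : Fin n → (H →L[ℂ] H), (∀ i, s i ∈ M ∧ z * s i = s i) ∧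
    ∀ i j, star (s i) * s j = if i = j then z else 0

/-- Finite projection. -/
def FinP (M : VonNeumannAlgebra H) (z : H →L[ℂ] H) : Prop :=
  ∀ v ∈ M, star v * v = z → z * v = v → v * star v = z

/-- A nearly tracial faithful vector functional on `M g`. -/
def NTr (M : VonNeumannAlgebra H) (g : H →L[ℂ] H) : Prop :=
  ∃ (k : ℕ) (Ω : HH (Fin k) H), dg k g Ω = Ω ∧
    (∀ x ∈ M, g * x = x → dg k x Ω = 0 → x = 0) ∧
    ∀ x ∈ M, g * x = x → ‖dg k (star x) Ω‖ ^ 2 ≤ 2 * ‖dg k x Ω‖ ^ 2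

/-- There is a contractive projection onto `M z`. -/
def CPr (M : VonNeumannAlgebra H) (z : H →L[ℂ] H) : Prop :=
  ∃ Q : (H →L[ℂ] H) →ₗ[ℂ] (H →L[ℂ] H), (∀ x, ‖Q x‖ ≤ ‖x‖) ∧ (∀ x, Q x ∈ M ∧ z * Q x = Q x) ∧
    ∀ m ∈ M, z * m = m → Q m = m

end defs

/-- Squared Frobenius norm. -/
def fr {κ : Type} [Fintype κ] (A : Matrix κ κ ℂ) : ℝ := ∑ i, ∑ j, ‖A i j‖ ^ 2

/-! ### K: decomposition into a small column and a small row -/

/-- Existence of the Hilbert-Schmidt representation. -/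
def P_minrep : Prop :=
  ∀ (H : Type) [NormedAddCommGroup H] [InnerProductSpace ℂ H] [CompleteSpace H],
    ∃ (κ : Type) (b : HilbertBasis κ ℂ H) (S : Type) (_ : NormedAddCommGroup S)
      (_ : InnerProductSpace ℂ S) (_ : CompleteSpace S) (l r : (H →L[ℂ] H) → (S →L[ℂ] S))
      (th : κ → κ → S), MinRep b l r th

/-- Duality estimate for matrices. -/
def K_dual : Prop :=
  ∀ (κ : Type) [Fintype κ] [DecidableEq κ] (ι : Type) [Fintype ι] (X Y : ι → Matrix κ κ ℂ)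
    (α β : Matrix κ κ ℂ) (μ : ℝ), 0 ≤ μ → α.PosSemidef → β.PosSemidef →
    α * α = ∑ i, Y i * (Y i).conjTranspose → β * β = ∑ i, (Y i).conjTranspose * Y i →
    (∀ A B : Matrix κ κ ℂ, ‖∑ i, (X i * A * (X i).conjTranspose * B).trace‖ ≤
      μ * √(fr A) * √(fr B)) →
    ‖∑ i, (X i * Y i).trace‖ ≤ √μ * √(α.trace.re * β.trace.re)

/-- Decomposition of matrices. -/
def K_fd : Prop :=
  ∀ (κ : Type) [Fintype κ] [DecidableEq κ] (ι : Type) [Fintype ι] (X : ι → Matrix κ κ ℂ)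
    (μ s : ℝ), 0 ≤ μ → 0 < s →
    (∀ A B : Matrix κ κ ℂ, ‖∑ i, (X i * A * (X i).conjTranspose * B).trace‖ ≤
      μ * √(fr A) * √(fr B)) →
    ∃ A B : ι → Matrix κ κ ℂ, (∀ i, X i = A i + B i) ∧
      ((((s * μ : ℝ) : ℂ) • (1 : Matrix κ κ ℂ)) - ∑ i, (A i).conjTranspose * A i).PosSemidef ∧
      ((((μ / s : ℝ) : ℂ) • (1 : Matrix κ κ ℂ)) - ∑ i, B i * (B i).conjTranspose).PosSemidef

/-- Decomposition of operators. -/
def K_op : Prop :=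
  ∀ (H : Type) [NormedAddCommGroup H] [InnerProductSpace ℂ H] [CompleteSpace H]
    (S κ : Type) [NormedAddCommGroup S] [InnerProductSpace ℂ S] [CompleteSpace S]
    (b : HilbertBasis κ ℂ H) (l r : (H →L[ℂ] H) → (S →L[ℂ] S)) (th : κ → κ → S),
    MinRep b l r th → ∀ (ι : Type) [Fintype ι] (x : ι → (H →L[ℂ] H)) (μ s : ℝ),
    ‖TT l r x‖ ≤ μ → 0 < s → ∃ a c : ι → (H →L[ℂ] H), (∀ i, x i = a i + c i) ∧
      colN a ≤ s * μ ∧ rowN c ≤ μ / s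

/-- Decomposition into pieces at all scales. -/
def K_dec : Prop :=
  ∀ (H : Type) [NormedAddCommGroup H] [InnerProductSpace ℂ H] [CompleteSpace H]
    (S κ : Type) [NormedAddCommGroup S] [InnerProductSpace ℂ S] [CompleteSpace S]
    (b : HilbertBasis κ ℂ H) (l r : (H →L[ℂ] H) → (S →L[ℂ] S)) (th : κ → κ → S),
    MinRep b l r th → ∀ (ι : Type) [Fintype ι] (x : ι → (H →L[ℂ] H)) (μ : ℝ) (W : ℕ),
    ‖TT l r x‖ ≤ μ → 0 < μ → colN x ≤ 4 ^ W * μ → rowN x ≤ 4 ^ W * μ →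
    ∃ a : Fin (2 * W + 2) → ι → (H →L[ℂ] H), (∀ i, ∑ j, a j i = x i) ∧
      ∀ j, colN (a j) ≤ 9 * (4 ^ (j : ℕ) / 4 ^ W) * μ ∧ rowN (a j) ≤ 9 * (4 ^ W / 4 ^ (j : ℕ)) * μ

/-! ### R: row and column bounds -/

/-- Averaging a bounded projection over the signed permutation matrices. -/
def R_mod : Prop :=
  ∀ (H : Type) [NormedAddCommGroup H] [InnerProductSpace ℂ H] [CompleteSpace H]
    (M : VonNeumannAlgebra H) (P : (H →L[ℂ] H) →ₗ[ℂ] (H →L[ℂ] H)) (C : ℝ), IsBP M P C →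
    ∀ z, IsCP M z → ∀ (n : ℕ) (e : Fin n → Fin n → (H →L[ℂ] H)), (∀ i j, e i j ∈ M) → MU e →
    (∀ i j, z * e i j = e i j) → ∃ Q : (H →L[ℂ] H) →ₗ[ℂ] (H →L[ℂ] H), ModP M z C e Q

/-- Improved bound for families in a small corner. -/
def R_cor : Prop :=
  ∀ (H : Type) [NormedAddCommGroup H] [InnerProductSpace ℂ H] [CompleteSpace H]
    (M : VonNeumannAlgebra H) (C : ℝ), 0 ≤ C → ∀ z, IsCP M z → ∀ (n : ℕ)
    (e : Fin n → Fin n → (H →L[ℂ] H)), (∀ i j, e i j ∈ M) → MU e →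
    ∀ Q : (H →L[ℂ] H) →ₗ[ℂ] (H →L[ℂ] H), ModP M z C e Q →
    ∀ (i₀ : Fin n) (ι : Type) [Fintype ι] (a : ι → (H →L[ℂ] H)),
      (∀ i, e i₀ i₀ * a i = a i ∧ a i * e i₀ i₀ = a i) →
      colN (fun i => Q (a i)) ≤ 3 * C ^ 2 * (colN a + rowN a / n) ∧
      rowN (fun i => Q (a i)) ≤ 3 * C ^ 2 * (rowN a + colN a / n)

/-- The properly infinite case. -/
def R_inf : Prop :=
  ∀ (H : Type) [NormedAddCommGroup H] [InnerProductSpace ℂ H] [CompleteSpace H]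
    (M : VonNeumannAlgebra H) (P : (H →L[ℂ] H) →ₗ[ℂ] (H →L[ℂ] H)) (C : ℝ), IsBP M P C →
    ∀ z, IsCP M z → PInf M z → RCp M z

/-- Bounded maps into a commutative corner. -/
def R_ab : Prop :=
  ∀ (H : Type) [NormedAddCommGroup H] [InnerProductSpace ℂ H] [CompleteSpace H]
    (N : Set (H →L[ℂ] H)) (p : H →L[ℂ] H), IsPr p → IsClosed N → p ∈ N →
    (∀ a ∈ N, ∀ b ∈ N, a + b ∈ N ∧ a * b ∈ N ∧ a * b = b * a ∧ star a ∈ N) →
    (∀ a ∈ N, ∀ c : ℂ, c • a ∈ N) → (∀ a ∈ N, p * a = a) →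
    ∀ (Q : (H →L[ℂ] H) →ₗ[ℂ] (H →L[ℂ] H)) (C : ℝ), 0 ≤ C → (∀ x, ‖Q x‖ ≤ C * ‖x‖) →
    (∀ x, Q x ∈ N) → ∀ (I J : Type) [Fintype I] [Fintype J] (a : I → J → (H →L[ℂ] H)) (K : ℝ),
    (∀ (u : I → ℂ) (v : J → ℂ), ‖∑ i, ∑ j, (u i * v j) • a i j‖ ≤
      K * √(∑ i, ‖u i‖ ^ 2) * √(∑ j, ‖v j‖ ^ 2)) →
    ∀ ξ : J → H, ∑ i, ‖∑ j, Q (a i j) (ξ j)‖ ^ 2 ≤ (C * K) ^ 2 * ∑ j, ‖ξ j‖ ^ 2

/-- The type I case. -/
def R_one : Prop :=
  ∀ (H : Type) [NormedAddCommGroup H] [InnerProductSpace ℂ H] [CompleteSpace H]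
    (M : VonNeumannAlgebra H) (P : (H →L[ℂ] H) →ₗ[ℂ] (H →L[ℂ] H)) (C : ℝ), IsBP M P C →
    ∀ z, IsCP M z → TypeI M z → RCp M z

/-! ### S: the inequality between the maximal and the minimal norm -/

/-- One application of the decomposition (row-column bounded case). -/
def S_one : Prop :=
  ∀ (H : Type) [NormedAddCommGroup H] [InnerProductSpace ℂ H] [CompleteSpace H]
    (S κ : Type) [NormedAddCommGroup S] [InnerProductSpace ℂ S] [CompleteSpace S]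
    (b : HilbertBasis κ ℂ H) (l₀ r₀ : (H →L[ℂ] H) → (S →L[ℂ] S)) (th : κ → κ → S),
    MinRep b l₀ r₀ th → ∀ (M : VonNeumannAlgebra H) (z p : H →L[ℂ] H), IsCP M z → RCp M z →
    p ∈ M → IsPr p → z * p = p →
    ∃ c : ℝ, 0 ≤ c ∧ ∀ (L : Type) [NormedAddCommGroup L] [InnerProductSpace ℂ L] [CompleteSpace L]
      (l r : (H →L[ℂ] H) → (L →L[ℂ] L)), BiRep (Cnr M p) l r →
      ∀ (ι : Type) [Fintype ι] (x : ι → (H →L[ℂ] H)), (∀ i, x i ∈ Cnr M p) → ∀ (μ : ℝ) (W : ℕ),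
      ‖TT l₀ r₀ x‖ ≤ μ → 0 < μ → colN x ≤ 4 ^ W * μ → rowN x ≤ 4 ^ W * μ →
      ‖TT l r x‖ ≤ c * (W + 1) * μ

/-- The inequality (row-column bounded case). -/
def S_rc : Prop :=
  ∀ (H : Type) [NormedAddCommGroup H] [InnerProductSpace ℂ H] [CompleteSpace H]
    (S κ : Type) [NormedAddCommGroup S] [InnerProductSpace ℂ S] [CompleteSpace S]
    (b : HilbertBasis κ ℂ H) (l₀ r₀ : (H →L[ℂ] H) → (S →L[ℂ] S)) (th : κ → κ → S),
    MinRep b l₀ r₀ th → ∀ (M : VonNeumannAlgebra H) (z p : H →L[ℂ] H), IsCP M z → RCp M z →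
    p ∈ M → IsPr p → z * p = p →
    ∀ (L : Type) [NormedAddCommGroup L] [InnerProductSpace ℂ L] [CompleteSpace L]
      (l r : (H →L[ℂ] H) → (L →L[ℂ] L)), BiRep (Cnr M p) l r →
      ∀ (ι : Type) [Fintype ι] (x : ι → (H →L[ℂ] H)), (∀ i, x i ∈ Cnr M p) →
      ‖TT l r x‖ ≤ ‖TT l₀ r₀ x‖

/-- One application of the decomposition (finite continuous case). -/
def S_onef : Prop :=
  ∀ (H : Type) [NormedAddCommGroup H] [InnerProductSpace ℂ H] [CompleteSpace H]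
    (S κ : Type) [NormedAddCommGroup S] [InnerProductSpace ℂ S] [CompleteSpace S]
    (b : HilbertBasis κ ℂ H) (l₀ r₀ : (H →L[ℂ] H) → (S →L[ℂ] S)) (th : κ → κ → S),
    MinRep b l₀ r₀ th → ∀ (M : VonNeumannAlgebra H) (P : (H →L[ℂ] H) →ₗ[ℂ] (H →L[ℂ] H)) (C : ℝ),
    IsBP M P C → ∀ z, IsCP M z → NA M z → ∀ (k : ℕ) (Ω : HH (Fin k) H), dg k z Ω = Ω →
    (∀ x ∈ M, z * x = x → ‖dg k (star x) Ω‖ ^ 2 ≤ 2 * ‖dg k x Ω‖ ^ 2) →
    ∃ c : ℝ, 0 ≤ c ∧ ∀ (ι : Type) [Fintype ι] (x : ι → (H →L[ℂ] H)), (∀ i, x i ∈ Cnr M z) →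
      ∑ i, ‖dg k (x i) Ω‖ ^ 2 ≤ c * ‖TT l₀ r₀ x‖

/-- The inequality (finite continuous case). -/
def S_fin : Prop :=
  ∀ (H : Type) [NormedAddCommGroup H] [InnerProductSpace ℂ H] [CompleteSpace H]
    (S κ : Type) [NormedAddCommGroup S] [InnerProductSpace ℂ S] [CompleteSpace S]
    (b : HilbertBasis κ ℂ H) (l₀ r₀ : (H →L[ℂ] H) → (S →L[ℂ] S)) (th : κ → κ → S),
    MinRep b l₀ r₀ th → ∀ (M : VonNeumannAlgebra H) (P : (H →L[ℂ] H) →ₗ[ℂ] (H →L[ℂ] H)) (C : ℝ),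
    IsBP M P C → ∀ z, IsCP M z → NA M z → ∀ (k : ℕ) (Ω : HH (Fin k) H), dg k z Ω = Ω → ‖Ω‖ = 1 →
    (∀ x ∈ M, z * x = x → ‖dg k (star x) Ω‖ ^ 2 ≤ 2 * ‖dg k x Ω‖ ^ 2) →
    ∀ (L : Type) [NormedAddCommGroup L] [InnerProductSpace ℂ L] [CompleteSpace L]
      (l r : (H →L[ℂ] H) → (L →L[ℂ] L)) (w : L), BiRep (Cnr M z) l r →
      (∀ a ∈ Cnr M z, ‖l a w‖ = ‖dg k a Ω‖ ∧ ‖r a w‖ = ‖dg k a Ω‖) → ‖w‖ = 1 →
      ∀ (ι : Type) [Fintype ι] (x : ι → (H →L[ℂ] H)), (∀ i, x i ∈ Cnr M z) →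
      ‖⟪w, TT l r x w⟫_ℂ‖ ≤ ‖TT l₀ r₀ x‖

/-! ### Tomita-Takesaki theory -/

/-- The modular conjugation. -/
structure ModConj {H : Type} [NormedAddCommGroup H] [InnerProductSpace ℂ H] [CompleteSpace H]
    (M : VonNeumannAlgebra H) (Ω : H) (J : H → H) : Prop where
  add : ∀ x y, J (x + y) = J x + J y
  smul : ∀ (c : ℂ) x, J (c • x) = conj c • J x
  inv : ∀ x, J (J x) = x
  inner : ∀ x y, ⟪J x, J y⟫_ℂ = ⟪y, x⟫_ℂ
  fix : J Ω = Ω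
  pos : ∀ a ∈ M, 0 ≤ ⟪J (a Ω), star a Ω⟫_ℂ
  comm : ∀ a ∈ M, ∀ b ∈ M, ∀ x, a (J (b (J x))) = J (b (J (a x)))
  full : ∀ a' : H →L[ℂ] H, (∀ a ∈ M, a' * a = a * a') → ∃ a ∈ M, ∀ x, a x = J (a' (J x))

/-- The Tomita-Takesaki theorem (existence of the modular conjugation). -/
def TT_main : Prop :=
  ∀ (H : Type) [NormedAddCommGroup H] [InnerProductSpace ℂ H] [CompleteSpace H]
    (M : VonNeumannAlgebra H) (Ω : H), (∀ x : H, (∀ a ∈ M, ⟪a Ω, x⟫_ℂ = 0) → x = 0) →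
    (∀ a ∈ M, a Ω = 0 → a = 0) → ∃ J : H → H, ModConj M Ω J

/-! ### E: extension -/

/-- Standard form of a corner. -/
structure StdForm {H L : Type} [NormedAddCommGroup H] [InnerProductSpace ℂ H] [CompleteSpace H]
    [NormedAddCommGroup L] [InnerProductSpace ℂ L] [CompleteSpace L]
    (M : VonNeumannAlgebra H) (p : H →L[ℂ] H) (l r : (H →L[ℂ] H) → (L →L[ℂ] L)) (w : L) :
    Prop where
  bi : BiRep (Cnr M p) l r
  l_p : l p = 1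
  r_p : r p = 1
  isom : ∀ a ∈ Cnr M p, ‖l a‖ = ‖a‖
  cyc : ∀ x : L, (∀ a ∈ Cnr M p, ⟪r a w, x⟫_ℂ = 0) → x = 0
  herm : ∀ a ∈ Cnr M p, ∀ b ∈ Cnr M p, ⟪w, l b (r a w)⟫_ℂ = conj ⟪w, l a (r b w)⟫_ℂ
  pos : ∀ a ∈ Cnr M p, 0 ≤ (⟪w, l a (r a w)⟫_ℂ).re
  full : ∀ T : L →L[ℂ] L, (∀ a ∈ Cnr M p, T * r a = r a * T) → ∃ a ∈ Cnr M p, T = l a
  sym : ∀ a ∈ Cnr M p, ‖r a w‖ = ‖l a w‖

/-- Hahn-Banach: a form on `B(H)` dominating a given quadratic form. -/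
def E_hb : Prop :=
  ∀ (H : Type) [NormedAddCommGroup H] [InnerProductSpace ℂ H] [CompleteSpace H]
    (S κ : Type) [NormedAddCommGroup S] [InnerProductSpace ℂ S] [CompleteSpace S]
    (b : HilbertBasis κ ℂ H) (l₀ r₀ : (H →L[ℂ] H) → (S →L[ℂ] S)) (th : κ → κ → S),
    MinRep b l₀ r₀ th → ∀ (A : Set (H →L[ℂ] H)) (p : H →L[ℂ] H) (q : (H →L[ℂ] H) → ℝ),
    IsPr p → p ∈ A → (∀ a ∈ A, ∀ c : ℂ, c • a ∈ A) → (∀ (c : ℂ) (a : H →L[ℂ] H), q (c • a) = ‖c‖ ^ 2 * q a) →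
    q p = 1 → (∀ (ι : Type) [Fintype ι] (x : ι → (H →L[ℂ] H)), (∀ i, x i ∈ A) →
      ∑ i, q (x i) ≤ ‖TT l₀ r₀ x‖) →
    ∃ F : (H →L[ℂ] H) → (H →L[ℂ] H) → ℂ,
      (∀ x x' y, F (x + x') y = F x y + F x' y) ∧ (∀ (c : ℂ) x y, F (c • x) y = c * F x y) ∧
      (∀ x y, F y x = conj (F x y)) ∧ F 1 1 = 1 ∧ (∀ y, F 1 y = F p y) ∧
      (∀ y, 0 ≤ (F 1 (star y * y)).re) ∧
      (∀ x y₁ y₂, ‖F x (star y₂ * y₁)‖ ≤
        ‖x‖ * √((F 1 (star y₁ * y₁)).re) * √((F 1 (star y₂ * y₂)).re)) ∧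
      ∀ x ∈ A, q x ≤ (F x x).re

/-- Woronowicz's argument: contractive map onto the corner. -/
def E_ext : Prop :=
  ∀ (H L : Type) [NormedAddCommGroup H] [InnerProductSpace ℂ H] [CompleteSpace H]
    [NormedAddCommGroup L] [InnerProductSpace ℂ L] [CompleteSpace L]
    (M : VonNeumannAlgebra H) (p : H →L[ℂ] H), p ∈ M → IsPr p →
    ∀ (l r : (H →L[ℂ] H) → (L →L[ℂ] L)) (w : L), StdForm M p l r w → ‖w‖ = 1 →
    ∀ F : (H →L[ℂ] H) → (H →L[ℂ] H) → ℂ,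
      (∀ x x' y, F (x + x') y = F x y + F x' y) → (∀ (c : ℂ) x y, F (c • x) y = c * F x y) →
      (∀ x y, F y x = conj (F x y)) → F 1 1 = 1 → (∀ y, F 1 y = F p y) →
      (∀ x y₁ y₂, ‖F x (star y₂ * y₁)‖ ≤
        ‖x‖ * √((F 1 (star y₁ * y₁)).re) * √((F 1 (star y₂ * y₂)).re)) →
      (∀ x ∈ Cnr M p, (⟪w, l x (r x w)⟫_ℂ).re ≤ (F x x).re) →
    ∃ E : (H →L[ℂ] H) →ₗ[ℂ] (H →L[ℂ] H), (∀ x, ‖E x‖ ≤ ‖x‖) ∧ (∀ x, E x ∈ Cnr M p) ∧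
      ∀ a ∈ Cnr M p, E a = a

/-! ### G: reduction and gluing -/

/-- The corner acting on a cyclic subspace is a von Neumann algebra; its standard form. -/
def G_std : Prop :=
  ∀ (H : Type) [NormedAddCommGroup H] [InnerProductSpace ℂ H] [CompleteSpace H]
    (M : VonNeumannAlgebra H) (p : H →L[ℂ] H), p ∈ M → IsPr p → ∀ (k : ℕ) (Ω : HH (Fin k) H),
    dg k p Ω = Ω → (∀ a ∈ Cnr M p, dg k a Ω = 0 → a = 0) →
    ∃ (L : Type) (_ : NormedAddCommGroup L) (_ : InnerProductSpace ℂ L) (_ : CompleteSpace L)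
      (l r : (H →L[ℂ] H) → (L →L[ℂ] L)) (w : L), StdForm M p l r w ∧
      ∀ a ∈ Cnr M p, ‖l a w‖ = ‖dg k a Ω‖

/-- Support projection of a finite family of vectors. -/
def G_supp : Prop :=
  ∀ (H : Type) [NormedAddCommGroup H] [InnerProductSpace ℂ H] [CompleteSpace H]
    (M : VonNeumannAlgebra H) (z : H →L[ℂ] H), IsCP M z → ∀ (k : ℕ) (Ω : HH (Fin k) H),
    dg k z Ω = Ω → ∃ p ∈ M, IsPr p ∧ z * p = p ∧ dg k p Ω = Ω ∧
      ∀ a ∈ Cnr M p, dg k a Ω = 0 → a = 0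

/-- Local result, row-column bounded case. -/
def G_rc : Prop :=
  ∀ (H : Type) [NormedAddCommGroup H] [InnerProductSpace ℂ H] [CompleteSpace H]
    (M : VonNeumannAlgebra H) (z : H →L[ℂ] H), IsCP M z → RCp M z → CPr M z

/-- Local result, finite continuous case. -/
def G_fin : Prop :=
  ∀ (H : Type) [NormedAddCommGroup H] [InnerProductSpace ℂ H] [CompleteSpace H]
    (M : VonNeumannAlgebra H) (P : (H →L[ℂ] H) →ₗ[ℂ] (H →L[ℂ] H)) (C : ℝ), IsBP M P C →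
    ∀ z, IsCP M z → z ≠ 0 → NA M z → NTr M z → CPr M z

/-- Nearly tracial vector functionals on finite algebras. -/
def G_ntr : Prop :=
  ∀ (H : Type) [NormedAddCommGroup H] [InnerProductSpace ℂ H] [CompleteSpace H]
    (M : VonNeumannAlgebra H) (z : H →L[ℂ] H), IsCP M z → z ≠ 0 → FinP M z →
    ∃ g, IsCP M g ∧ g ≠ 0 ∧ z * g = g ∧ NTr M g

/-- Properly infinite central projections. -/
def G_pinf : Prop :=
  ∀ (H : Type) [NormedAddCommGroup H] [InnerProductSpace ℂ H] [CompleteSpace H]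
    (M : VonNeumannAlgebra H) (z : H →L[ℂ] H), IsCP M z →
    (∀ g, IsCP M g → z * g = g → FinP M g → g = 0) → PInf M z

/-- Gluing. -/
def G_glue : Prop :=
  ∀ (H : Type) [NormedAddCommGroup H] [InnerProductSpace ℂ H] [CompleteSpace H]
    (M : VonNeumannAlgebra H),
    (∀ w, IsCP M w → w ≠ 0 → ∃ z, IsCP M z ∧ z ≠ 0 ∧ w * z = z ∧ CPr M z) → CPr M 1

/-- The final theorem. -/
def G_main : Prop :=
  ∀ (H : Type) [NormedAddCommGroup H] [InnerProductSpace ℂ H] [CompleteSpace H]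
    (M : VonNeumannAlgebra H),
    (∃ P : (H →L[ℂ] H) →L[ℂ] (H →L[ℂ] H), (∀ x, P x ∈ M) ∧ (∀ m ∈ M, P m = m)) →
    (∃ Q : (H →L[ℂ] H) →L[ℂ] (H →L[ℂ] H), (∀ x, Q x ∈ M) ∧ (∀ m ∈ M, Q m = m) ∧ ‖Q‖ ≤ 1)

end H68R2.BP
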