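import Mathlib
import Pool.Agent.H68R2.BP.Props

/-!
Tomita-Takesaki theory with bounded operators (Rieffel - van Daele): statements of the pieces.
-/

open scoped ComplexOrder InnerProductSpace ComplexConjugate Topology
open Finset Filter

noncomputable section

namespace H68R2.BP

open H759R2.Kad H744R2.KZ

section defs

variable {H : Type} [NormedAddCommGroup H] [InnerProductSpace ℂ H] [CompleteSpace H]

/-- The operators `R`, `T` of a real subspace. -/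
structure ROp (R T : H →L[ℂ] H) : Prop where
  R_sa : star R = R
  R_pos : ∀ x, 0 ≤ (⟪R x, x⟫_ℂ).re
  R_le : ∀ x, (⟪R x, x⟫_ℂ).re ≤ 2 * ‖x‖ ^ 2
  R_inj : ∀ x, R x = 0 → x = 0
  R_inj' : ∀ x, (2 : ℂ) • x - R x = 0 → x = 0
  T_sa : star T = T
  T_pos : ∀ x, 0 ≤ (⟪T x, x⟫_ℂ).re
  T_sq : T * T = R * ((2 : ℂ) • 1 - R)
  TR : T * R = R * T

/-- The operators and the conjugation belonging to a pair of real subspaces. -/
structure TOp (K K' : Set H) (R T : H →L[ℂ] H) (J : H → H) : Prop where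
  rop : ROp R T
  add : ∀ x y, J (x + y) = J x + J y
  smul : ∀ (c : ℂ) x, J (c • x) = conj c • J x
  inv : ∀ x, J (J x) = x
  inner : ∀ x y, ⟪J x, J y⟫_ℂ = ⟪y, x⟫_ℂ
  JT : ∀ x, J (T x) = T (J x)
  JR : ∀ x, J (R x) = (2 : ℂ) • J x - R (J x)
  k : ∀ x ∈ K, (2 : ℂ) • x - R x = J (T x)
  k' : ∀ x ∈ K', R x = J (T x)
  pr : ∀ x ∈ K, (2 : ℂ) • x - R x ∈ K' ∧ ∀ y ∈ K', (⟪y, x - ((2 : ℂ) • x - R x)⟫_ℂ).re = 0
  pr' : ∀ x ∈ K', R x ∈ K ∧ ∀ y ∈ K, (⟪y, x - R x⟫_ℂ).re = 0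

/-- Closure of `{a Ω | a ∈ M self-adjoint}`. -/
def KS (M : Set (H →L[ℂ] H)) (Ω : H) : Set H := closure {x | ∃ a ∈ M, star a = a ∧ a Ω = x}

/-- The commutant as a set. -/
def Cm (M : Set (H →L[ℂ] H)) : Set (H →L[ℂ] H) := {b | ∀ a ∈ M, b * a = a * b}

/-- Cyclic and separating data: `M`, `N` are commutants of each other, star closed. -/
structure CS (M N : Set (H →L[ℂ] H)) (Ω : H) : Prop where
  cN : N = Cm M
  cM : M = Cm N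
  stM : ∀ a ∈ M, star a ∈ M
  cyc : ∀ x : H, (∀ a ∈ M, ⟪a Ω, x⟫_ℂ = 0) → x = 0
  cyc' : ∀ x : H, (∀ a ∈ N, ⟪a Ω, x⟫_ℂ = 0) → x = 0
  sep : ∀ a ∈ M, a Ω = 0 → a = 0
  sep' : ∀ a ∈ N, a Ω = 0 → a = 0

end defs

/-- The kernel. -/
def kt (θ t : ℝ) : ℝ := Real.exp (-θ * t) / (2 * Real.cosh (Real.pi * t))

/-- A closed real subspace. -/
def T_rs : Prop :=
  ∀ (H : Type) [NormedAddCommGroup H] [InnerProductSpace ℂ H] [CompleteSpace H] (K K' : Set H),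
    IsClosed K → 0 ∈ K → (∀ x ∈ K, ∀ y ∈ K, x + y ∈ K) → (∀ x ∈ K, ∀ r : ℝ, (r : ℂ) • x ∈ K) →
    (∀ x ∈ K, Complex.I • x ∈ K → x = 0) → (∀ y : H, (∀ x ∈ K, ⟪x, y⟫_ℂ = 0) → y = 0) →
    K' = {x | ∀ y ∈ K, (⟪y, x⟫_ℂ).im = 0} →
    ∃ (R T : H →L[ℂ] H) (J : H → H), TOp K K' R T J

/-- Commutation lemma for real subspaces. -/
def T_com : Prop :=
  ∀ (H : Type) [NormedAddCommGroup H] [InnerProductSpace ℂ H] [CompleteSpace H]
    (M N : Set (H →L[ℂ] H)) (Ω : H), CS M N Ω →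
    KS N Ω = {x | ∀ y ∈ KS M Ω, (⟪y, x⟫_ℂ).im = 0}

/-- Existence of the operators. -/
def T_ex : Prop :=
  ∀ (H : Type) [NormedAddCommGroup H] [InnerProductSpace ℂ H] [CompleteSpace H]
    (M N : Set (H →L[ℂ] H)) (Ω : H), CS M N Ω →
    ∃ (R T : H →L[ℂ] H) (J : H → H), TOp (KS M Ω) (KS N Ω) R T J

/-- Sakai's linear Radon-Nikodym theorem. -/
def T_rn : Prop :=
  ∀ (H : Type) [NormedAddCommGroup H] [InnerProductSpace ℂ H] [CompleteSpace H]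
    (M N : Set (H →L[ℂ] H)) (Ω : H), CS M N Ω → ∀ a' ∈ N, star a' = a' →
    (∀ x, 0 ≤ (⟪a' x, x⟫_ℂ).re) → (∀ x, (⟪a' x, x⟫_ℂ).re ≤ ‖x‖ ^ 2) → ∀ lam : ℂ, 0 < lam.re →
    ∃ x ∈ M, star x = x ∧ ∀ y ∈ M,
      ⟪Ω, y (a' Ω)⟫_ℂ = lam * ⟪Ω, x (y Ω)⟫_ℂ + conj lam * ⟪Ω, y (x Ω)⟫_ℂ

/-- `R` maps `N Ω` into `M Ω`. -/
def T_map : Prop :=
  ∀ (H : Type) [NormedAddCommGroup H] [InnerProductSpace ℂ H] [CompleteSpace H]
    (M N : Set (H →L[ℂ] H)) (Ω : H), CS M N Ω → ∀ (R T : H →L[ℂ] H) (J : H → H),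
    TOp (KS M Ω) (KS N Ω) R T J → ∀ b ∈ N, ∃ y ∈ M, y Ω = R (b Ω) ∧ star y Ω = R (star b Ω)

/-- The operator identity. -/
def T_id : Prop :=
  ∀ (H : Type) [NormedAddCommGroup H] [InnerProductSpace ℂ H] [CompleteSpace H]
    (M N : Set (H →L[ℂ] H)) (Ω : H), CS M N Ω → ∀ (R T : H →L[ℂ] H) (J : H → H),
    TOp (KS M Ω) (KS N Ω) R T J → ∀ a' ∈ N, star a' = a' →
    (∀ x, 0 ≤ (⟪a' x, x⟫_ℂ).re) → (∀ x, (⟪a' x, x⟫_ℂ).re ≤ ‖x‖ ^ 2) → ∀ lam : ℂ, 0 < lam.re →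
    ∃ x ∈ M, ∀ ξ, T (J (a' (J (T ξ)))) =
      lam • (((2 : ℂ) • 1 - R) * x * R) ξ + conj lam • (R * x * ((2 : ℂ) • 1 - R)) ξ

/-- Cut-offs of the logarithm. -/
def T_cut : Prop :=
  ∀ (H : Type) [NormedAddCommGroup H] [InnerProductSpace ℂ H] [CompleteSpace H]
    (R T : H →L[ℂ] H), ROp R T → ∃ h c : ℕ → (H →L[ℂ] H), (∀ m, star (h m) = h m) ∧
      (∀ m, star (c m) = c m) ∧ (∀ m, ‖c m‖ ≤ 1) ∧
      (∀ m, h m * R = R * h m) ∧ (∀ m, c m * R = R * c m) ∧ (∀ m k, h m * c k = c k * h m) ∧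
      (∀ m k, h m * h k = h k * h m) ∧ (∀ m k, c m * c k = c k * c m) ∧
      (∀ m, NormedSpace.exp (h m) * R * c m = ((2 : ℂ) • 1 - R) * c m) ∧
      (∀ m, NormedSpace.exp ((1 / 2 : ℂ) • h m) * R * c m = T * c m) ∧
      (∀ m k, m ≤ k → h k * c m = h m * c m) ∧ ∀ x, Tendsto (fun m => c m x) atTop (𝓝 x)

/-- The unitary group. -/
def T_grpU : Prop :=
  ∀ (H : Type) [NormedAddCommGroup H] [InnerProductSpace ℂ H] [CompleteSpace H]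
    (h c : ℕ → (H →L[ℂ] H)), (∀ m, star (h m) = h m) →
      (∀ m, star (c m) = c m) → (∀ m, ‖c m‖ ≤ 1) → (∀ m k, h m * c k = c k * h m) →
      (∀ m k, h m * h k = h k * h m) → (∀ m k, c m * c k = c k * c m) →
      (∀ m k, m ≤ k → h k * c m = h m * c m) → (∀ x, Tendsto (fun m => c m x) atTop (𝓝 x)) →
    ∃ U : ℝ → (H →L[ℂ] H), U 0 = 1 ∧ (∀ t, star (U t) = U (-t)) ∧ (∀ t, ‖U t‖ ≤ 1) ∧
      (∀ x, Continuous fun t => U t x) ∧ (∀ t m, U t * c m = c m * U t) ∧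
      ∀ t m, U t * c m = NormedSpace.exp ((Complex.I * t) • h m) * c m

/-- The integral formula for bounded logarithms. -/
def T_syl : Prop :=
  ∀ (H : Type) [NormedAddCommGroup H] [InnerProductSpace ℂ H] [CompleteSpace H]
    (h z : H →L[ℂ] H), star h = h → ∀ θ : ℝ, |θ| < Real.pi →
    let X : H →L[ℂ] H := ∫ t : ℝ, (kt θ t : ℂ) •
      (NormedSpace.exp ((Complex.I * t) • h) * z * NormedSpace.exp (-(Complex.I * t) • h))
    ((2 * Real.cos (θ / 2) * ∫ t : ℝ, kt θ t : ℝ) : ℂ) • z =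
      Complex.exp (Complex.I * θ / 2) • (NormedSpace.exp ((1 / 2 : ℂ) • h) * X *
        NormedSpace.exp (-(1 / 2 : ℂ) • h)) +
      Complex.exp (-(Complex.I * θ / 2)) • (NormedSpace.exp (-(1 / 2 : ℂ) • h) * X *
        NormedSpace.exp ((1 / 2 : ℂ) • h))

/-- Uniqueness of the solution. -/
def T_unq : Prop :=
  ∀ (H : Type) [NormedAddCommGroup H] [InnerProductSpace ℂ H] [CompleteSpace H]
    (h Y : H →L[ℂ] H), star h = h → ∀ lam : ℂ, 0 < lam.re →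
    lam • (NormedSpace.exp h * Y) + conj lam • (Y * NormedSpace.exp h) = 0 → Y = 0

/-- Fourier uniqueness. -/
def T_fou : Prop :=
  ∀ g : ℝ → ℂ, Continuous g → (∃ C, ∀ t, ‖g t‖ ≤ C) →
    (∀ θ : ℝ, |θ| < Real.pi → ∫ t : ℝ, (kt θ t : ℂ) * g t = 0) → g 0 = 0

/-- The analytic part. -/
def T_an : Prop :=
  ∀ (H : Type) [NormedAddCommGroup H] [InnerProductSpace ℂ H] [CompleteSpace H]
    (R T : H →L[ℂ] H), ROp R T → ∀ z y : H →L[ℂ] H,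
    (∀ θ : ℝ, |θ| < Real.pi → ∃ x : H →L[ℂ] H, y * x = x * y ∧
      T * z * T = Complex.exp (Complex.I * θ / 2) • (((2 : ℂ) • 1 - R) * x * R) +
        Complex.exp (-(Complex.I * θ / 2)) • (R * x * ((2 : ℂ) • 1 - R))) → y * z = z * y

/-- The commutation theorem. -/
def T_fin : Prop :=
  ∀ (H : Type) [NormedAddCommGroup H] [InnerProductSpace ℂ H] [CompleteSpace H]
    (M N : Set (H →L[ℂ] H)) (Ω : H), CS M N Ω → ∀ (R T : H →L[ℂ] H) (J : H → H),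
    TOp (KS M Ω) (KS N Ω) R T J → ∀ a' ∈ N, ∃ a ∈ M, ∀ x, a x = J (a' (J x))

/-- Matrix units in algebras without abelian projections. -/
def G_mu : Prop :=
  ∀ (H : Type) [NormedAddCommGroup H] [InnerProductSpace ℂ H] [CompleteSpace H]
    (M : VonNeumannAlgebra H) (z : H →L[ℂ] H), IsCP M z → NA M z → ∀ k : ℕ,
    ∃ e : Fin (2 ^ k) → Fin (2 ^ k) → (H →L[ℂ] H), (∀ i j, e i j ∈ M) ∧ MU e ∧ ∑ i, e i i = z

end H68R2.BP
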