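import Mathlib
import Pool.Agent.H68R2.BP.PropsT

/-!
Intermediate statements (splitting of the longer pieces).
-/

open scoped ComplexOrder InnerProductSpace ComplexConjugate Topology
open Finset Filter

noncomputable section

namespace H68R2.BP

open H759R2.Kad H744R2.KZ

/-- The compressions satisfy the hypothesis of the finite dimensional decomposition. -/
def K_mat : Prop :=
  ∀ (H : Type) [NormedAddCommGroup H] [InnerProductSpace ℂ H] [CompleteSpace H]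
    (S κ : Type) [NormedAddCommGroup S] [InnerProductSpace ℂ S] [CompleteSpace S]
    (b : HilbertBasis κ ℂ H) (l r : (H →L[ℂ] H) → (S →L[ℂ] S)) (th : κ → κ → S),
    MinRep b l r th → ∀ (ι : Type) [Fintype ι] (x : ι → (H →L[ℂ] H)) (F : Finset κ)
      [DecidableEq κ] (A B : Matrix F F ℂ),
    ‖∑ i, ((Matrix.of fun p q : F => ⟪b p, x i (b q)⟫_ℂ) * A *
      (Matrix.of fun p q : F => ⟪b p, x i (b q)⟫_ℂ).conjTranspose * B).trace‖ ≤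
      ‖TT l r x‖ * √(fr A) * √(fr B)

/-- Amplification by matrix units: norms. -/
def S_y : Prop :=
  ∀ (H : Type) [NormedAddCommGroup H] [InnerProductSpace ℂ H] [CompleteSpace H]
    (S κ : Type) [NormedAddCommGroup S] [InnerProductSpace ℂ S] [CompleteSpace S]
    (b : HilbertBasis κ ℂ H) (l r : (H →L[ℂ] H) → (S →L[ℂ] S)) (th : κ → κ → S),
    MinRep b l r th → ∀ (z : H →L[ℂ] H), IsPr z → ∀ (n : ℕ) (e : Fin n → Fin n → (H →L[ℂ] H)),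
    MU e → ∑ i, e i i = z → ∀ i₀ : Fin n, ∀ (ι : Type) [Fintype ι] (x : ι → (H →L[ℂ] H)),
    (∀ i, z * x i = x i ∧ x i * z = x i) →
    let y : ι × Fin n × Fin n → (H →L[ℂ] H) :=
      fun t => (((√(n : ℝ))⁻¹ : ℝ) : ℂ) • (e i₀ t.2.1 * x t.1 * e t.2.2 i₀)
    colN y ≤ colN x ∧ rowN y ≤ rowN x ∧ ‖TT l r y‖ ≤ ‖TT l r x‖ ∧
      ∀ t, e i₀ i₀ * y t = y t ∧ y t * e i₀ i₀ = y t

/-- Amplification by matrix units: nearly tracial functionals. -/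
def S_tr : Prop :=
  ∀ (H : Type) [NormedAddCommGroup H] [InnerProductSpace ℂ H] [CompleteSpace H]
    (M : VonNeumannAlgebra H) (z : H →L[ℂ] H), IsCP M z → ∀ (k : ℕ) (Ω : HH (Fin k) H),
    dg k z Ω = Ω → (∀ x ∈ M, z * x = x → ‖dg k (star x) Ω‖ ^ 2 ≤ 2 * ‖dg k x Ω‖ ^ 2) →
    ∀ (n : ℕ) (e : Fin n → Fin n → (H →L[ℂ] H)), (∀ i j, e i j ∈ M) → MU e → ∑ i, e i i = z →
    ∀ i₀ : Fin n, (n : ℝ) * ‖dg k (e i₀ i₀) Ω‖ ^ 2 ≤ 2 * ‖Ω‖ ^ 2 ∧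
    (∀ (ι : Type) [Fintype ι] (x : ι → (H →L[ℂ] H)), (∀ i, x i ∈ Cnr M z) →
      ∑ i, ‖dg k (x i) Ω‖ ^ 2 ≤ 4 * n * ∑ t : ι × Fin n × Fin n,
        ‖dg k ((((√(n : ℝ))⁻¹ : ℝ) : ℂ) • (e i₀ t.2.1 * x t.1 * e t.2.2 i₀)) Ω‖ ^ 2) ∧
    (∀ (ι : Type) [Fintype ι] (u : ι → (H →L[ℂ] H)), (∀ i, u i ∈ Cnr M (e i₀ i₀)) →
      ∑ i, ‖dg k (u i) Ω‖ ^ 2 ≤ colN u * ‖dg k (e i₀ i₀) Ω‖ ^ 2 ∧
      ∑ i, ‖dg k (u i) Ω‖ ^ 2 ≤ 2 * rowN u * ‖dg k (e i₀ i₀) Ω‖ ^ 2)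

/-- Hahn-Banach selection on finite sets. -/
def E_sel : Prop :=
  ∀ (H : Type) [NormedAddCommGroup H] [InnerProductSpace ℂ H] [CompleteSpace H]
    (S κ : Type) [NormedAddCommGroup S] [InnerProductSpace ℂ S] [CompleteSpace S]
    (b : HilbertBasis κ ℂ H) (l₀ r₀ : (H →L[ℂ] H) → (S →L[ℂ] S)) (th : κ → κ → S),
    MinRep b l₀ r₀ th → ∀ (A : Set (H →L[ℂ] H)) (q : (H →L[ℂ] H) → ℝ),
    (∀ a ∈ A, ∀ c : ℂ, c • a ∈ A) → (∀ (c : ℂ) (a : H →L[ℂ] H), q (c • a) = ‖c‖ ^ 2 * q a) →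
    (∀ (ι : Type) [Fintype ι] (x : ι → (H →L[ℂ] H)), (∀ i, x i ∈ A) →
      ∑ i, q (x i) ≤ ‖TT l₀ r₀ x‖) →
    ∀ (F : Finset (H →L[ℂ] H)) (ε : ℝ), (∀ x ∈ F, x ∈ A) → 0 < ε →
    ∃ (n : ℕ) (h k : Fin n → S), ∑ j, ‖h j‖ ^ 2 ≤ 1 ∧ ∑ j, ‖k j‖ ^ 2 ≤ 1 ∧
      ∀ x ∈ F, q x - ε ≤ ∑ j, (⟪k j, l₀ x (r₀ x (h j))⟫_ℂ).re

/-- The corner acting on a cyclic subspace is a von Neumann algebra. -/
def G_bic : Prop :=
  ∀ (H : Type) [NormedAddCommGroup H] [InnerProductSpace ℂ H] [CompleteSpace H]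
    (M : VonNeumannAlgebra H) (p : H →L[ℂ] H), p ∈ M → IsPr p → ∀ (k : ℕ) (Ω : HH (Fin k) H),
    dg k p Ω = Ω → (∀ a ∈ Cnr M p, dg k a Ω = 0 → a = 0) →
    ∃ (L : Type) (_ : NormedAddCommGroup L) (_ : InnerProductSpace ℂ L) (_ : CompleteSpace L)
      (l : (H →L[ℂ] H) →ₗ[ℂ] (L →L[ℂ] L)) (w : L) (N : VonNeumannAlgebra L),
      (∀ a ∈ Cnr M p, ∀ c ∈ Cnr M p, l (a * c) = l a * l c) ∧
      (∀ a ∈ Cnr M p, l (star a) = star (l a)) ∧ l p = 1 ∧ (∀ a ∈ Cnr M p, ‖l a‖ = ‖a‖) ∧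
      (∀ a ∈ Cnr M p, ‖l a w‖ = ‖dg k a Ω‖) ∧ (∀ T, T ∈ N ↔ ∃ a ∈ Cnr M p, T = l a) ∧
      ∀ x : L, (∀ a ∈ Cnr M p, ⟪l a w, x⟫_ℂ = 0) → x = 0

/-- The local form of the integral formula. -/
def T_loc : Prop :=
  ∀ (H : Type) [NormedAddCommGroup H] [InnerProductSpace ℂ H] [CompleteSpace H]
    (R T : H →L[ℂ] H), ROp R T → ∀ h c : H →L[ℂ] H, star h = h → star c = c → h * R = R * h →
    c * R = R * c → h * c = c * h → NormedSpace.exp h * R * c = ((2 : ℂ) • 1 - R) * c →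
    NormedSpace.exp ((1 / 2 : ℂ) • h) * R * c = T * c →
    ∀ (z x : H →L[ℂ] H) (θ : ℝ), |θ| < Real.pi →
    T * z * T = Complex.exp (Complex.I * θ / 2) • (((2 : ℂ) • 1 - R) * x * R) +
        Complex.exp (-(Complex.I * θ / 2)) • (R * x * ((2 : ℂ) • 1 - R)) →
    ((2 * Real.cos (θ / 2) * ∫ t : ℝ, kt θ t : ℝ) : ℂ) • (c * x * c) =
      ∫ t : ℝ, (kt θ t : ℂ) • (NormedSpace.exp ((Complex.I * t) • h) * (c * z * c) *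
        NormedSpace.exp (-(Complex.I * t) • h))

end H68R2.BP
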