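import Mathlib
import Pool.Agent.H101R2.BP.Grc
import Pool.Agent.H101R2.BP.Kop
import Pool.Agent.H101R2.BP.Sone
import Pool.Agent.H101R2.BP.Trs
import Pool.Agent.H129R2.BP.TRn
import Pool.Agent.H133R2.BP.GrpU
import Pool.Agent.H134R2.BP.GMain
import Pool.Agent.H215R2.BP.GNtr
import Pool.Agent.H235R2.BP.SRc
import Pool.Agent.H267R2.BP.Kfd
import Pool.Agent.H272R2.BP.Pinf
import Pool.Agent.H287R2.BP.RCor
import Pool.Agent.H339R2.BP.Unq
import Pool.Agent.H355R2.BP.GGlue
import Pool.Agent.H398R2.BP.Tex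
import Pool.Agent.H477R2.BP.Kmat
import Pool.Agent.H477R2.BP.Sonef
import Pool.Agent.H487R2.BP.TCom
import Pool.Agent.H495R2.BP.RInf
import Pool.Agent.H532R2.BP.SFin
import Pool.Agent.H532R2.BP.STr
import Pool.Agent.H532R2.BP.TId
import Pool.Agent.H551R2.BP.EHb
import Pool.Agent.H558R2.BP.TMap
import Pool.Agent.H56R2.BP.GBic
import Pool.Agent.H57R2.BP.KDec
import Pool.Agent.H57R2.BP.TAn
import Pool.Agent.H61R2.BP.Supp
import Pool.Agent.H66R2.BP.TFou
import Pool.Agent.H66R2.BP.TLoc
import Pool.Agent.H66R2.BP.TSyl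
import Pool.Agent.H672R2.BP.GStd
import Pool.Agent.H676R2.BP.MinRep
import Pool.Agent.H724R2.BP.Rmod
import Pool.Agent.H737R2.BP.TTMain
import Pool.Agent.H797R2.BP.KDual
import Pool.Agent.H79R2.BP.Rab
import Pool.Agent.H814R2.BP.Eext
import Pool.Agent.H819R2.BP.GFin
import Pool.Agent.H830R2.BP.ROne
import Pool.Agent.H841R2.BP.ESel
import Pool.Agent.H965R2.BP.Gmu
import Pool.Agent.H965R2.BP.Sy
import Pool.Agent.H96R2.BP.TCut
import Pool.Agent.H978R3.BP.TFin

/-!
A von Neumann algebra that is the range of a bounded projection of `B(H)` is injective: assembly.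
-/

noncomputable section

namespace H68R2.BP

/-- The final theorem. -/
theorem final_main : G_main := by
  have hminrep := prove_P_minrep
  have hKfd := prove_K_fd prove_K_dual
  have hKop := prove_K_op hKfd prove_K_mat
  have hKdec := prove_K_dec hKop
  have hSone := prove_S_one hKdec
  have hSrc := prove_S_rc hSone
  have hSonef := prove_S_onef hKop prove_R_mod prove_R_cor prove_G_mu prove_S_y prove_S_tr
  have hSfin := prove_S_fin hSonef
  have hTex := prove_T_ex prove_T_rs prove_T_com
  have hTmap := prove_T_map prove_T_rn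
  have hTid := prove_T_id prove_T_rn hTmap
  have hTloc := prove_T_loc prove_T_syl prove_T_unq
  have hTan := prove_T_an prove_T_cut prove_T_grpU hTloc prove_T_fou
  have hTfin := H978R3.BP.prove_T_fin hTid hTan
  have hTT := prove_TT_main hTex hTfin
  have hEhb := prove_E_hb prove_E_sel
  have hEext := prove_E_ext
  have hGstd := prove_G_std prove_G_bic hTT
  have hGsupp := prove_G_supp
  have hGrc := prove_G_rc hminrep hSrc hEhb hEext hGstd hGsupp
  have hGfin := prove_G_fin hminrep hSfin hEhb hEext hGstd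
  exact prove_G_main (prove_R_one prove_R_mod prove_R_ab) (prove_R_inf prove_R_mod prove_R_cor)
    hGrc hGfin prove_G_ntr prove_G_pinf prove_G_glue

end H68R2.BP
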